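import Pool.Agent.Helper33.IR.Goals

set_option autoImplicit false

namespace Pool.Agent.Helper44.IR

open Pool.Agent.Helper33.IR

lemma four_pow (m : ℕ) : ∃ w, 4 ^ m = 3 * w + 1 := by
  induction m with
  | zero => exact ⟨0, by norm_num⟩
  | succ m ih =>
    obtain ⟨w, hw⟩ := ih
    exact ⟨4 * w + 1, by rw [pow_succ, hw]; ring⟩

lemma three_pow (b : ℕ) (hb : 1 ≤ b) : ∃ y, 3 ^ b = 3 * y := by
  refine ⟨3 ^ (b - 1), ?_⟩
  rw [← pow_succ']
  congr 1
  omega

lemma ne_t (b m : ℕ) (hb : 1 ≤ b) (t : ℚ) (ht : t ∈ Th3) : (3 : ℚ) ^ b / 4 ^ m ≠ t := by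
  intro h
  have h4 : (4 : ℚ) ^ m ≠ 0 := by positivity
  rw [div_eq_iff h4] at h
  obtain ⟨w, hw⟩ := four_pow m
  obtain ⟨y, hy⟩ := three_pow b hb
  simp only [Th3, Finset.mem_insert, Finset.mem_singleton] at ht
  rcases ht with rfl | rfl | rfl | rfl | rfl
  · have h1 : (3 : ℚ) ^ b = 4 ^ m := by linarith
    have h2 : 3 ^ b = 4 ^ m := by exact_mod_cast h1
    omega
  · have h1 : 4 * (3 : ℚ) ^ b = 5 * 4 ^ m := by linarith
    have h2 : 4 * 3 ^ b = 5 * 4 ^ m := by exact_mod_cast h1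
    omega
  · have h1 : 5 * (3 : ℚ) ^ b = 8 * 4 ^ m := by linarith
    have h2 : 5 * 3 ^ b = 8 * 4 ^ m := by exact_mod_cast h1
    omega
  · have h1 : (3 : ℚ) ^ b = 2 * 4 ^ m := by linarith
    have h2 : 3 ^ b = 2 * 4 ^ m := by exact_mod_cast h1
    omega
  · have h1 : (3 : ℚ) ^ b = 4 * 4 ^ m := by linarith
    have h2 : 3 ^ b = 4 * 4 ^ m := by exact_mod_cast h1
    omega

lemma log_pos_form (b m : ℕ) : Real.log (((3 : ℚ) ^ b / 4 ^ m : ℚ) : ℝ) = lin b m := by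
  push_cast
  rw [Real.log_div (by positivity) (by positivity), Real.log_pow, Real.log_pow]
  simp [lin]

lemma th_pos (t : ℚ) (ht : t ∈ Th3) : 0 < t := by
  simp only [Th3, Finset.mem_insert, Finset.mem_singleton] at ht
  rcases ht with rfl | rfl | rfl | rfl | rfl <;> norm_num

lemma side (q p b m : ℕ) (hb : 1 ≤ b) (t : ℚ) (ht : t ∈ Th3) (hm : m ≤ b)
    (h : ¬ Cross3 (lin q p) t b) :
    ((3 : ℚ) ^ b / 4 ^ m < t ↔ (3 : ℚ) ^ (b + q) / 4 ^ (m + p) < t) := by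
  have h1 := ne_t b m hb t ht
  have h2 := ne_t (b + q) (m + p) (by omega) t ht
  have ht0 := th_pos t ht
  have ht0' : (0 : ℝ) < (t : ℝ) := by exact_mod_cast ht0
  set α : ℚ := (3 : ℚ) ^ b / 4 ^ m with hα
  set β : ℚ := (3 : ℚ) ^ (b + q) / 4 ^ (m + p) with hβ
  have hα0 : 0 < α := by positivity
  have hβ0 : 0 < β := by positivity
  have hα0' : (0 : ℝ) < (α : ℝ) := by exact_mod_cast hα0
  have hβ0' : (0 : ℝ) < (β : ℝ) := by exact_mod_cast hβ0
  have hla : Real.log (α : ℝ) = lin b m := log_pos_form b m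
  have hlb : Real.log (β : ℝ) = lin b m + lin q p := by
    have := log_pos_form (b + q) (m + p)
    rw [hβ, this]
    simp only [lin]
    push_cast
    ring
  have hprod : 0 ≤ (lin b m - Real.log t) * (lin b m - Real.log t + lin q p) := by
    by_contra hc
    exact h ⟨m, hm, not_le.mp hc⟩
  rw [show lin b m - Real.log t + lin q p = Real.log (β : ℝ) - Real.log t by rw [hlb]; ring,
    ← hla] at hprod
  have ha : (α < t) ↔ (Real.log (α : ℝ) - Real.log t < 0) := by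
    rw [sub_neg, Real.log_lt_log_iff hα0' ht0']
    exact_mod_cast Iff.rfl
  have hb' : (β < t) ↔ (Real.log (β : ℝ) - Real.log t < 0) := by
    rw [sub_neg, Real.log_lt_log_iff hβ0' ht0']
    exact_mod_cast Iff.rfl
  have hane : Real.log (α : ℝ) - Real.log t ≠ 0 := by
    intro hc
    have h3 : (α : ℝ) = (t : ℝ) := Real.log_injOn_pos (Set.mem_Ioi.mpr hα0') (Set.mem_Ioi.mpr ht0')
      (by linarith)
    exact h1 (by exact_mod_cast h3)
  have hbne : Real.log (β : ℝ) - Real.log t ≠ 0 := by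
    intro hc
    have h3 : (β : ℝ) = (t : ℝ) := Real.log_injOn_pos (Set.mem_Ioi.mpr hβ0') (Set.mem_Ioi.mpr ht0')
      (by linarith)
    exact h2 (by exact_mod_cast h3)
  rw [ha, hb']
  constructor
  · intro hx
    rcases lt_or_gt_of_ne hbne with hy | hy
    · exact hy
    · exact absurd hprod (not_le.mpr (mul_neg_of_neg_of_pos hx hy))
  · intro hy
    rcases lt_or_gt_of_ne hane with hx | hx
    · exact hx
    · exact absurd hprod (not_le.mpr (mul_neg_of_pos_of_neg hx hy))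

theorem gCRW : G_CRW := by
  intro q p q' p' _ b hb hW
  by_contra hno
  push Not at hno
  apply hW
  set m := Nat.log 4 (3 ^ b) with hm
  have hlow : 4 ^ m ≤ 3 ^ b := Nat.pow_log_le_self 4 (by positivity)
  have hup : 3 ^ b < 4 ^ (m + 1) := Nat.lt_pow_succ_log_self (by norm_num) _
  have hmb : m ≤ b := by
    by_contra hc
    have h1 : 4 ^ (b + 1) ≤ 4 ^ m := Nat.pow_le_pow_right (by norm_num) (by omega)
    have h2 : 3 ^ b ≤ 4 ^ b := Nat.pow_le_pow_left (by norm_num) _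
    have h3 : 0 < 4 ^ b := by positivity
    rw [pow_succ] at h1
    omega
  have hs : ∀ t ∈ Th3, ((3 : ℚ) ^ b / 4 ^ m < t ↔ (3 : ℚ) ^ (b + q) / 4 ^ (m + p) < t) :=
    fun t ht => side q p b m hb t ht hmb (hno t ht)
  have hn1 : ∀ t ∈ Th3, (3 : ℚ) ^ b / 4 ^ m ≠ t := fun t ht => ne_t b m hb t ht
  have hn2 : ∀ t ∈ Th3, (3 : ℚ) ^ (b + q) / 4 ^ (m + p) ≠ t :=
    fun t ht => ne_t (b + q) (m + p) (by omega) t ht
  have hr : rr b = (3 : ℚ) ^ b / 4 ^ m := rfl
  have e1 : (1 : ℚ) ∈ Th3 := by simp [Th3]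
  have e54 : (5 / 4 : ℚ) ∈ Th3 := by simp [Th3]
  have e85 : (8 / 5 : ℚ) ∈ Th3 := by simp [Th3]
  have e2 : (2 : ℚ) ∈ Th3 := by simp [Th3]
  have e4 : (4 : ℚ) ∈ Th3 := by simp [Th3]
  have ha1 : (1 : ℚ) ≤ 3 ^ b / 4 ^ m := by
    rw [le_div_iff₀ (by positivity), one_mul]
    exact_mod_cast hlow
  have ha4 : (3 : ℚ) ^ b / 4 ^ m < 4 := by
    rw [div_lt_iff₀ (by positivity), ← pow_succ']
    exact_mod_cast hup
  have hb4 := (hs 4 e4).mp ha4
  have hb1 : (1 : ℚ) ≤ 3 ^ (b + q) / 4 ^ (m + p) := by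
    by_contra hc
    have := (hs 1 e1).mpr (not_le.mp hc)
    linarith
  have hlog : Nat.log 4 (3 ^ (b + q)) = m + p := by
    rw [Nat.log_eq_iff (Or.inr ⟨by norm_num, by positivity⟩)]
    constructor
    · rw [le_div_iff₀ (by positivity), one_mul] at hb1
      exact_mod_cast hb1
    · rw [div_lt_iff₀ (by positivity), ← pow_succ'] at hb4
      exact_mod_cast hb4
  have hr2 : rr (b + q) = (3 : ℚ) ^ (b + q) / 4 ^ (m + p) := by
    unfold rr
    rw [hlog]
  unfold W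
  rw [hr, hr2]
  generalize (3 : ℚ) ^ b / 4 ^ m = α at *
  generalize (3 : ℚ) ^ (b + q) / 4 ^ (m + p) = β at *
  have g1 := hs 1 e1
  have g54 := hs _ e54
  have g85 := hs _ e85
  have g2 := hs _ e2
  have i1 : (1 < β ↔ 1 < α) := by
    constructor
    · intro _; exact lt_of_le_of_ne ha1 (Ne.symm (hn1 1 e1))
    · intro _; exact lt_of_le_of_ne hb1 (Ne.symm (hn2 1 e1))
  have i2 : (β < 2 ↔ α < 2) := g2.symm
  have i3 : (2 < β ↔ 2 < α) := by
    constructor
    · intro h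
      rcases lt_or_gt_of_ne (hn1 2 e2) with h' | h'
      · have := g2.mp h'; linarith
      · exact h'
    · intro h
      rcases lt_or_gt_of_ne (hn2 2 e2) with h' | h'
      · have := g2.mpr h'; linarith
      · exact h'
  have i4 : (8 / 5 ≤ β ↔ 8 / 5 ≤ α) := by
    rw [← not_lt, ← not_lt, g85]
  have i5 : (β ≤ 5 / 4 ↔ α ≤ 5 / 4) := by
    constructor
    · intro h
      exact le_of_lt (g54.mpr (lt_of_le_of_ne h (hn2 _ e54)))
    · intro h
      exact le_of_lt (g54.mp (lt_of_le_of_ne h (hn1 _ e54)))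
  unfold om
  simp only [i1, i2, i3, i4, i5]

end Pool.Agent.Helper44.IR
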